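import Pool.Agent.WW47.Main

/-!
# Water waves with finitely many space harmonics are trivial (infinite depth)

`WaterWave g κ γ a b η ψ Φ q p` says that `(η, ψ)` is a classical solution on the time interval
from `a` to `b` of the space periodic water waves equations with infinite depth, gravity `g`,
surface tension `κ` and constant vorticity `γ`, with generalised velocity potential `Φ`.
If at each time the surface `η(t, ·)` is a trigonometric polynomial (of a degree that may depend
on the time), then the solution is the rest state: `η` is constant, `ψ` does not depend on `x`,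
and the velocity `∇Φ` vanishes below the surface.
-/

open Set WW47

theorem Pool.Agent.Results.MP_e9adf6_an.BandLimited.result {g κ γ a b : ℝ} (hg : 0 < g)
    {η ψ : ℝ → ℝ → ℝ} {Φ : ℝ → ℂ → ℝ} {q : ℝ → ℝ → ℝ} {p : ℝ → ℝ}
    (hw : WaterWave g κ γ a b η ψ Φ q p)
    (h : ∀ t ∈ Ioo a b, ∃ (N : ℕ) (c : ℤ → ℂ), ∀ x : ℝ, (η t x : ℂ) = tp N c x) :
    ∃ h0 : ℝ, ∀ t ∈ Ioo a b, (∀ x, η t x = h0) ∧ (∀ x, deriv (ψ t) x = 0) ∧
      ∀ z : ℂ, z.im < h0 → px Φ t z = 0 ∧ py Φ t z = 0 :=
  WW47.main hg hw h
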