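import Pool.Agent.WW47.BS.End

/-!
# Almost periodic water waves with bounded time spectrum are stationary (infinite depth)

`WaterWave g κ γ (-T) T η ψ Φ q p` for all `T > 0` says that the pair η, ψ is a classical solution
for all times of the space periodic water waves equations with infinite depth, gravity `g`, surface
tension `κ` and constant vorticity `γ`, with generalised velocity potential `Φ`.
`BandLim C R f` says that `f` extends to an entire function `F` with `|F(t)| ≤ C e^{R |Im t|}`;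
for an almost periodic function this means that all its frequencies are in the interval from `-R`
to `R`.
If the elevation is almost periodic in time, and the elevation, its slope, and the velocity at the
sufficiently deep points have bounded time spectrum, then the solution is stationary, and it is the
rest state if there is no vorticity.
-/

open Set WW47 WW47.BS

theorem Pool.Agent.Results.MP_e9adf6_an.BoundedSpectrum.result {g κ γ : ℝ} (hg : 0 < g)
    (hκ : 0 ≤ κ) {η ψ : ℝ → ℝ → ℝ} {Φ : ℝ → ℂ → ℝ} {q : ℝ → ℝ → ℝ} {p : ℝ → ℝ}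
    (hw : ∀ T > 0, WaterWave g κ γ (-T) T η ψ Φ q p)
    (hap : ∀ x : ℝ, ∀ δ > 0, ∃ L : ℝ, ∀ a : ℝ, ∃ τ ∈ Icc a (a + L), ∀ t : ℝ,
      |η (t + τ) x - η t x| ≤ δ ∧ |etax η (t + τ) x - etax η t x| ≤ δ)
    {C R Y : ℝ}
    (hη : ∀ x : ℝ, BandLim C R (fun t => η t x) ∧ BandLim C R (fun t => etax η t x))
    (hΦ : ∀ z : ℂ, z.im < Y → BandLim C R (fun t => px Φ t z) ∧ BandLim C R (fun t => py Φ t z)) :
    (∀ t s : ℝ, (∀ x, η t x = η s x) ∧ (∀ x, deriv (ψ t) x = deriv (ψ s) x) ∧
      ∀ z : ℂ, z.im < η t z.re → px Φ t z = px Φ s z ∧ py Φ t z = py Φ s z) ∧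
    (γ = 0 → ∃ h0 : ℝ, ∀ t : ℝ, (∀ x, η t x = h0) ∧ (∀ x, deriv (ψ t) x = 0) ∧
      ∀ z : ℂ, z.im < h0 → px Φ t z = 0 ∧ py Φ t z = 0) := by
  refine ⟨steady hw hap hη hΦ, ?_⟩
  rintro rfl
  exact rest0 hg hκ hw hap hη hΦ
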