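import Pool.Agent.WW62.Final

/-!
# Gravity waves whose potential has finitely many space harmonics are trivial (any depth)

`GravityWave d g γ a b η ψ Φ q p` says that `(η, ψ)` is a classical solution on the time interval
from `a` to `b` of the space periodic water waves equations without surface tension, with depth
`d` (`none`: infinite depth, `some h`: depth `h`), gravity `g` and constant vorticity `γ`, with
generalised velocity potential `Φ`.  If at each time `Φ` is, in the fluid, the real part of a finite
sum `∑ c_k e^{-ikz}` (number of terms and coefficients may depend on the time), then the solution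
is the rest state.
-/

open Set WW62 WW47

theorem Pool.Agent.Results.MP_e9adf6_an.FinitePotential.result {d : Option ℝ} {g γ a b : ℝ}
    (hg : 0 < g) {η ψ : ℝ → ℝ → ℝ} {Φ : ℝ → ℂ → ℝ} {q : ℝ → ℝ → ℝ} {p : ℝ → ℝ}
    (hw : GravityWave d g γ a b η ψ Φ q p)
    (hfin : ∀ t ∈ Ioo a b, ∃ (M : ℕ) (c : ℤ → ℂ), ∀ z, InFluid d (η t) z →
      Φ t z = (ep M c z).re) :
    ∃ h0 : ℝ, ∀ t ∈ Ioo a b, (∀ x, η t x = h0) ∧ (∀ x, deriv (ψ t) x = 0) ∧
      ∀ z, InFluid d (η t) z → px Φ t z = 0 ∧ py Φ t z = 0 :=
  WW62.main hg hw hfin
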