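import Pool.Agent.WW47.FS.End

/-!
# Water waves with finitely many time frequencies are stationary (infinite depth)

`WaterWave g κ γ a b η ψ Φ q p` says that the pair η, ψ is a classical solution on the time interval
from `a` to `b` of the space periodic water waves equations with infinite depth, gravity `g`,
surface tension `κ` and constant vorticity `γ`, with generalised velocity potential `Φ`.
`es Λ A t` is the exponential sum with frequencies in the finite set `Λ` and coefficients `A`.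
If the elevation at each `x` and the velocity at each sufficiently deep point are such sums in the
time `t`, then the solution is stationary, and it is the rest state if there is no vorticity.
-/

open Set WW47 WW47.FS

theorem Pool.Agent.Results.MP_e9adf6_an.FiniteSpectrum.result {g κ γ a b : ℝ} (hg : 0 < g)
    (hκ : 0 ≤ κ) {η ψ : ℝ → ℝ → ℝ} {Φ : ℝ → ℂ → ℝ} {q : ℝ → ℝ → ℝ} {p : ℝ → ℝ}
    (hw : WaterWave g κ γ a b η ψ Φ q p) (Λ : Finset ℝ)
    (hη : ∀ x : ℝ, ∃ A : ℝ → ℂ, ∀ t ∈ Ioo a b, (η t x : ℂ) = es Λ A t)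
    (hΦ : ∃ Y : ℝ, ∀ z : ℂ, z.im < Y → ∃ A B : ℝ → ℂ, ∀ t ∈ Ioo a b,
      (px Φ t z : ℂ) = es Λ A t ∧ (py Φ t z : ℂ) = es Λ B t) :
    (∀ t ∈ Ioo a b, ∀ s ∈ Ioo a b, (∀ x, η t x = η s x) ∧
      (∀ x, deriv (ψ t) x = deriv (ψ s) x) ∧
      ∀ z : ℂ, z.im < η t z.re → px Φ t z = px Φ s z ∧ py Φ t z = py Φ s z) ∧
    (γ = 0 → ∃ h0 : ℝ, ∀ t ∈ Ioo a b, (∀ x, η t x = h0) ∧ (∀ x, deriv (ψ t) x = 0) ∧
      ∀ z : ℂ, z.im < h0 → px Φ t z = 0 ∧ py Φ t z = 0) := by
  refine ⟨steady hw hη hΦ, ?_⟩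
  rintro rfl
  exact rest0 hg hκ hw hη hΦ
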